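import Mathlib

/-!
A scattered Eberlein-Grothendieck hereditarily meta-Lindelof space of height and cardinality
`ω₁` for which the poset of finite sets is never ccc, whatever choices are made.
-/

open Set Filter Topology
open scoped Ordinal Cardinal

namespace Pool.Agent.Results.MP_8301b4_gt.NotCcc

section Defs

variable (X : Type) [TopologicalSpace X]

/-- Eberlein-Grothendieck spaces: homeomorphic to a subspace of the space of continuous real
functions on a compact (Hausdorff) space with the topology of pointwise convergence. -/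
def EberleinGrothendieck : Prop :=
  ∃ (K : Type) (_ : TopologicalSpace K) (_ : CompactSpace K) (_ : T2Space K) (φ : X → C(K, ℝ)),
    IsEmbedding (fun x => (φ x : K → ℝ))

/-- Every open cover has a point-countable open refinement. -/
def MetaLindelof : Prop :=
  ∀ C : Set (Set X), (∀ U ∈ C, IsOpen U) → ⋃₀ C = univ →
    ∃ R : Set (Set X), (∀ V ∈ R, IsOpen V) ∧ ⋃₀ R = univ ∧ (∀ V ∈ R, ∃ U ∈ C, V ⊆ U) ∧
      ∀ x, {V ∈ R | x ∈ V}.Countable

/-- Every subspace is meta-Lindelof. -/
def HereditarilyMetaLindelof : Prop := ∀ Y : Set X, MetaLindelof Y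

variable {X} in
/-- The point `x` is an isolated point of the set `A`. -/
def IsolatedIn (A : Set X) (x : X) : Prop := ∃ U : Set X, IsOpen U ∧ U ∩ A = {x}

/-- Every nonempty subset has an isolated point. -/
def Scattered : Prop := ∀ A : Set X, A.Nonempty → ∃ x ∈ A, IsolatedIn A x

/-- The iterated derived sets `X^(α)`. -/
noncomputable def CB (α : Ordinal.{0}) : Set X :=
  Ordinal.limitRecOn (motive := fun _ => Set X) α univ
    (fun _ A => {x ∈ A | ¬ IsolatedIn A x}) (fun α _ D => ⋂ (β : Ordinal.{0}) (h : β < α), D β h)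

/-- The height of the space is `α`. -/
def HasHeight (α : Ordinal.{0}) : Prop := CB X α = ∅ ∧ ∀ β < α, CB X β ≠ ∅

variable {X}

/-- `U x` is, for each `x`, an open set that meets the scattering level of `x` only in `x`; and `V`
is a point-countable open refinement of the cover by the sets `U x`. -/
def IsChoice (U : X → Set X) (V : Set (Set X)) : Prop :=
  (∀ x, IsOpen (U x) ∧ ∀ α, x ∈ CB X α \ CB X (α + 1) → U x ∩ (CB X α \ CB X (α + 1)) = {x}) ∧
    (∀ W ∈ V, IsOpen W) ∧ ⋃₀ V = univ ∧ (∀ W ∈ V, ∃ x, W ⊆ U x) ∧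
      ∀ x, {W ∈ V | x ∈ W}.Countable

/-- The union of the members of the refinement that contain `x`. -/
def star (V : Set (Set X)) (x : X) : Set X := ⋃₀ {W ∈ V | x ∈ W}

/-- The poset of finite sets `p` with `star V x ∩ p = {x}` for every `x ∈ p` (ordered by reverse
inclusion). -/
def Poset (V : Set (Set X)) : Set (Set X) := {p | p.Finite ∧ ∀ x ∈ p, star V x ∩ p = {x}}

/-- Two conditions are compatible if they have a common extension. -/
def Compatible (V : Set (Set X)) (p q : Set X) : Prop := ∃ r ∈ Poset V, p ⊆ r ∧ q ⊆ r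

/-- The countable chain condition: every family of pairwise incompatible conditions is
countable. -/
def Ccc (V : Set (Set X)) : Prop :=
  ∀ F : Set (Set X), F ⊆ Poset V → (∀ p ∈ F, ∀ q ∈ F, p ≠ q → ¬ Compatible V p q) → F.Countable

end Defs

section General

variable {X : Type} [TopologicalSpace X]

theorem cb_zero : CB X 0 = univ := Ordinal.limitRecOn_zero _ _ _

theorem cb_succ (α : Ordinal.{0}) : CB X (α + 1) = {x ∈ CB X α | ¬ IsolatedIn (CB X α) x} :=
  Ordinal.limitRecOn_add_one _ _ _ _

theorem cb_limit {α : Ordinal.{0}} (h : Order.IsSuccLimit α) : CB X α = ⋂ β < α, CB X β :=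
  Ordinal.limitRecOn_limit _ _ _ _ h

/-- If all neighbourhoods of some point are uncountable, the poset is not ccc. -/
theorem not_ccc {U : X → Set X} {V : Set (Set X)} (h : IsChoice U V) {x : X}
    (hx : ∀ W : Set X, IsOpen W → x ∈ W → ¬ W.Countable) : ¬ Ccc V := by
  obtain ⟨-, hopen, hcov, -, -⟩ := h
  obtain ⟨W, hWV, hxW⟩ : x ∈ ⋃₀ V := by rw [hcov]; trivial
  intro hccc
  have hstar : ∀ y ∈ W, W ⊆ star V y := fun y hy z hz => ⟨W, ⟨hWV, hy⟩, hz⟩
  have h1 : ((fun y : X => ({y} : Set X)) '' W).Countable := by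
    apply hccc
    · rintro _ ⟨y, hy, rfl⟩
      refine ⟨finite_singleton y, ?_⟩
      intro z hz
      rw [mem_singleton_iff.1 hz]
      exact inter_eq_right.2 (singleton_subset_iff.2 (hstar y hy hy))
    · rintro _ ⟨y, hy, rfl⟩ _ ⟨z, hz, rfl⟩ hne ⟨r, ⟨-, hr⟩, hyr, hzr⟩
      have hyr' : y ∈ r := hyr rfl
      have hzr' : z ∈ r := hzr rfl
      have h2 : z ∈ star V y ∩ r := ⟨hstar y hy hz, hzr'⟩
      rw [hr y hyr'] at h2
      exact hne (by rw [mem_singleton_iff.1 h2])
  have h2 : W.Countable := by
    have h3 := h1.preimage_of_injOn (s := (fun y : X => ({y} : Set X)) '' W)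
      (f := fun y : X => ({y} : Set X)) (singleton_injective.injOn)
    rwa [preimage_image_eq _ singleton_injective] at h3
  exact hx W (hopen W hWV) hxW h2

end General

/-! ### The space -/

/-- A well-ordered set of type `ω₁`. -/
abbrev W : Type := (ω_ 1 : Ordinal.{0}).ToType

/-- The ordinal of an element of `W`. -/
noncomputable def rk (w : W) : Ordinal.{0} := w.toOrd

theorem rk_lt {v w : W} : rk v < rk w ↔ v < w := by
  unfold rk
  rw [Subtype.coe_lt_coe]
  exact (Ordinal.ToType.mk.symm).lt_iff_lt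

theorem rk_lt_omega (w : W) : rk w < ω_ 1 := w.toOrd.2

theorem exists_rk {α : Ordinal.{0}} (h : α < ω_ 1) : ∃ w : W, rk w = α :=
  ⟨Ordinal.ToType.mk ⟨α, h⟩, by simp [rk]⟩

theorem mk_W : #W = ℵ₁ := by
  rw [Cardinal.mk_toType]
  simp

instance : Uncountable W := by
  rw [← Cardinal.aleph0_lt_mk_iff, mk_W]
  exact Cardinal.aleph0_lt_aleph_one

instance : Infinite W := inferInstance

/-- The points of the space: nonempty lists of pairs whose first coordinates increase strictly (so
that they decrease strictly from the end of the list to its head). -/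
structure Pt where
  l : List (W × W)
  ne : l ≠ []
  dec : l.Pairwise fun a b => a.1 < b.1

theorem Pt.ext' {x y : Pt} (h : x.l = y.l) : x = y := by
  cases x
  cases y
  cases h
  rfl

/-- The level of a point. -/
noncomputable def lev (x : Pt) : Ordinal.{0} := rk (x.l.head x.ne).1

/-- The extensions of a point. -/
def C (s : Pt) : Set Pt := {x | s.l <:+ x.l}

theorem mem_C_self (x : Pt) : x ∈ C x := List.suffix_refl _

theorem lev_lt {s x : Pt} (h : x ∈ C s) (hne : x ≠ s) : lev x < lev s := by
  obtain ⟨u, hu⟩ := h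
  cases u with
  | nil => exact (hne (Pt.ext' hu.symm)).elim
  | cons a u =>
    have hu' : x.l = a :: (u ++ s.l) := hu.symm
    have h1 : x.l.head x.ne = a := by
      simp [hu']
    unfold lev
    rw [h1, rk_lt]
    have h2 := x.dec
    rw [hu'] at h2
    exact (List.pairwise_cons.1 h2).1 _ (List.mem_append_right _ (List.head_mem s.ne))

theorem lev_le {s x : Pt} (h : x ∈ C s) : lev x ≤ lev s := by
  by_cases hne : x = s
  · rw [hne]
  · exact (lev_lt h hne).le

theorem C_subset {s x : Pt} (h : x ∈ C s) : C x ⊆ C s := fun _ hz => List.IsSuffix.trans h hz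

theorem C_antisymm {s x : Pt} (h : x ∈ C s) (h' : s ∈ C x) : x = s := by
  by_contra hne
  exact absurd (lev_lt h hne) (not_lt.2 (lev_le h'))

theorem finite_suffixes (x : Pt) : {s : Pt | x ∈ C s}.Finite := by
  refine Finite.of_finite_image (f := Pt.l) ((List.finite_toSet x.l.tails).subset ?_) ?_
  · rintro _ ⟨s, hs, rfl⟩
    exact (List.mem_tails _ _).2 hs
  · intro s _ t _ h
    exact Pt.ext' h

open Classical in
/-- The characteristic function of the set of initial segments. -/
noncomputable def chi (x s : Pt) : ℝ := if x ∈ C s then 1 else 0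

/-- The topology of pointwise convergence. -/
noncomputable instance : TopologicalSpace Pt :=
  TopologicalSpace.induced chi Pi.topologicalSpace

theorem isInducing_chi : IsInducing chi := ⟨rfl⟩

theorem continuous_chi (s : Pt) : Continuous fun x => chi x s :=
  (continuous_apply s).comp isInducing_chi.continuous

theorem isOpen_C (s : Pt) : IsOpen (C s) := by
  have : C s = (fun x => chi x s) ⁻¹' Ioi (1 / 2) := by
    ext x
    by_cases h : x ∈ C s
    · simp [chi, h]
      norm_num
    · simp [chi, h]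
  rw [this]
  exact isOpen_Ioi.preimage (continuous_chi s)

theorem isClosed_C (s : Pt) : IsClosed (C s) := by
  have : C s = (fun x => chi x s) ⁻¹' Ici (1 / 2) := by
    ext x
    by_cases h : x ∈ C s
    · simp [chi, h]
      norm_num
    · simp [chi, h]
  rw [this]
  exact isClosed_Ici.preimage (continuous_chi s)

/-- Basic neighbourhoods. -/
theorem exists_basic {U : Set Pt} (hU : IsOpen U) {x : Pt} (hx : x ∈ U) :
    ∃ F : Finset Pt, (∀ s ∈ F, x ∉ C s) ∧ ∀ z ∈ C x, (∀ s ∈ F, z ∉ C s) → z ∈ U := by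
  classical
  obtain ⟨V, hV, rfl⟩ := isInducing_chi.isOpen_iff.1 hU
  obtain ⟨I, u, hu, hsub⟩ := isOpen_pi_iff.1 hV (chi x) hx
  refine ⟨I.filter fun s => x ∉ C s, fun s hs => (Finset.mem_filter.1 hs).2, ?_⟩
  intro z hz hzF
  apply hsub
  intro s hs
  have : chi z s = chi x s := by
    by_cases h : x ∈ C s
    · have h' : z ∈ C s := C_subset h hz
      simp [chi, h, h']
    · have h' : z ∉ C s := hzF s (Finset.mem_filter.2 ⟨hs, h⟩)
      simp [chi, h, h']
  show chi z s ∈ u s
  rw [this]
  exact (hu s hs).2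

theorem chi_injective : Function.Injective chi := by
  intro x y h
  have h1 := congrFun h x
  have h2 := congrFun h y
  apply C_antisymm
  · by_contra hne
    simp [chi, hne, mem_C_self] at h2
  · by_contra hne
    simp [chi, hne, mem_C_self] at h1

/-! ### Eberlein-Grothendieck -/

/-- A discrete copy of the space. -/
structure D where
  pt : Pt

instance : TopologicalSpace D := ⊥

instance : DiscreteTopology D := ⟨rfl⟩

/-- The functions on the one-point compactification of the discrete copy. -/
noncomputable def phiFun (x : Pt) (p : OnePoint D) : ℝ :=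
  OnePoint.elim p 0 (fun d : D => chi x d.pt)

theorem continuous_phiFun (x : Pt) : Continuous (phiFun x) := by
  rw [OnePoint.continuous_iff_from_discrete]
  have h1 : phiFun x OnePoint.infty = 0 := rfl
  rw [h1]
  apply tendsto_const_nhds.congr'
  rw [EventuallyEq, eventually_cofinite]
  have h2 : {d : D | ¬ (0 : ℝ) = phiFun x d} ⊆ D.pt ⁻¹' {s | x ∈ C s} := by
    intro d hd
    by_contra hne
    apply hd
    show (0 : ℝ) = chi x d.pt
    have hne' : x ∉ C d.pt := hne
    rw [chi, if_neg hne']
  refine ((finite_suffixes x).preimage ?_).subset h2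
  intro a _ b _ h
  cases a
  cases b
  cases h
  rfl

theorem eberleinGrothendieck : EberleinGrothendieck Pt := by
  refine ⟨OnePoint D, inferInstance, inferInstance, inferInstance,
    fun x => ⟨phiFun x, continuous_phiFun x⟩, ?_⟩
  have hcont : Continuous (fun x => phiFun x : Pt → OnePoint D → ℝ) := by
    refine continuous_pi fun p => ?_
    induction p using OnePoint.rec with
    | infty => exact continuous_const
    | coe d => exact continuous_chi d.pt
  have hcomp : IsInducing ((fun h : OnePoint D → ℝ => fun s : Pt => h ((⟨s⟩ : D) : OnePoint D)) ∘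
      (fun x => phiFun x : Pt → OnePoint D → ℝ)) := isInducing_chi
  refine ⟨IsInducing.of_comp hcont (by fun_prop) hcomp, ?_⟩
  intro x y h
  apply chi_injective
  ext s
  exact congrFun h ((⟨s⟩ : D) : OnePoint D)

/-! ### Hereditarily meta-Lindelof -/

theorem hereditarilyMetaLindelof : HereditarilyMetaLindelof Pt := by
  intro Y 𝒞 hopen hcov
  have h1 : ∀ y : Y, ∃ U ∈ 𝒞, y ∈ U := fun y => by
    have : y ∈ ⋃₀ 𝒞 := by rw [hcov]; trivial
    exact this
  choose U hU hyU using h1
  refine ⟨range fun y : Y => U y ∩ Subtype.val ⁻¹' (C y), ?_, ?_, ?_, ?_⟩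
  · rintro _ ⟨y, rfl⟩
    exact (hopen _ (hU y)).inter ((isOpen_C _).preimage continuous_subtype_val)
  · refine eq_univ_of_forall fun y => ?_
    exact ⟨_, ⟨y, rfl⟩, hyU y, mem_C_self _⟩
  · rintro _ ⟨y, rfl⟩
    exact ⟨U y, hU y, inter_subset_left⟩
  · intro x
    apply Finite.countable
    have h2 : {y : Y | (x : Pt) ∈ C y}.Finite :=
      Finite.preimage (s := {s : Pt | (x : Pt) ∈ C s}) Subtype.val_injective.injOn
        (finite_suffixes x)
    refine (h2.image fun y : Y => U y ∩ Subtype.val ⁻¹' (C y)).subset ?_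
    rintro _ ⟨⟨y, rfl⟩, hxy⟩
    exact ⟨y, hxy.2, rfl⟩

/-! ### Scattering levels -/

theorem exists_ext {x : Pt} {α : Ordinal.{0}} (hα : α < lev x) :
    ∃ w : W, rk w = α ∧ ∀ v : W, ∃ z : Pt, z.l = (w, v) :: x.l := by
  obtain ⟨w, hw⟩ := exists_rk (hα.trans (rk_lt_omega _))
  refine ⟨w, hw, fun v => ⟨⟨(w, v) :: x.l, List.cons_ne_nil _ _, ?_⟩, rfl⟩⟩
  rw [List.pairwise_cons]
  refine ⟨fun b hb => ?_, x.dec⟩
  have h1 : w < (x.l.head x.ne).1 := by
    rw [← rk_lt, hw]
    exact hα
  obtain ⟨a, t, hat⟩ := List.exists_cons_of_ne_nil x.ne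
  have h2 : x.l.head x.ne = a := by simp [hat]
  rw [h2] at h1
  rw [hat, List.mem_cons] at hb
  rcases hb with rfl | hb
  · exact h1
  · have h3 := x.dec
    rw [hat, List.pairwise_cons] at h3
    exact h1.trans (h3.1 b hb)

/-- Infinitely many immediate extensions of level `α` in every neighbourhood. -/
theorem nhds_ext {U : Set Pt} (hU : IsOpen U) {x : Pt} (hx : x ∈ U) {α : Ordinal.{0}}
    (hα : α < lev x) : ∃ f : W → Pt, Function.Injective f ∧ (∀ v, lev (f v) = α) ∧
      (∀ v, f v ∈ C x) ∧ {v | f v ∉ U}.Finite := by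
  obtain ⟨w, hw, hz⟩ := exists_ext hα
  choose f hf using hz
  have hinj : Function.Injective f := by
    intro a b hab
    have h1 : (w, a) :: x.l = (w, b) :: x.l := by rw [← hf a, ← hf b, hab]
    exact (Prod.mk.inj (List.cons.inj h1).1).2
  refine ⟨f, hinj, ?_, ?_, ?_⟩
  · intro v
    have h1 : (f v).l.head (f v).ne = (w, v) := by simp [hf v]
    unfold lev
    rw [h1]
    exact hw
  · intro v
    show x.l <:+ (f v).l
    rw [hf v]
    exact List.suffix_cons _ _
  · obtain ⟨F, hF1, hF2⟩ := exists_basic hU hx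
    refine ((F.finite_toSet).preimage hinj.injOn).subset fun v hv => ?_
    have h1 : f v ∈ C x := by
      show x.l <:+ (f v).l
      rw [hf v]
      exact List.suffix_cons _ _
    have h2 : ∃ s ∈ F, f v ∈ C s := by
      by_contra hcon
      push Not at hcon
      exact hv (hF2 _ h1 hcon)
    obtain ⟨s, hs, hfs⟩ := h2
    have h3 : s.l <:+ (w, v) :: x.l := by rw [← hf v]; exact hfs
    rcases List.suffix_cons_iff.1 h3 with h4 | h4
    · have : s = f v := Pt.ext' (h4.trans (hf v).symm)
      show f v ∈ F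
      rw [← this]
      exact hs
    · exact (hF1 s hs h4).elim

theorem cb_eq (α : Ordinal.{0}) : CB Pt α = {x | α ≤ lev x} := by
  induction α using Ordinal.limitRecOn with
  | zero =>
    rw [cb_zero]
    symm
    exact eq_univ_of_forall fun x => (bot_le : (0 : Ordinal.{0}) ≤ lev x)
  | add_one α ih =>
    rw [cb_succ, ih]
    ext x
    constructor
    · rintro ⟨h1, h2⟩
      have h1' : α ≤ lev x := h1
      rcases eq_or_lt_of_le h1' with h | h
      · exfalso
        apply h2
        refine ⟨C x, isOpen_C x, ?_⟩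
        ext z
        constructor
        · rintro ⟨hz1, hz2⟩
          by_contra hne
          have h3 := lev_lt hz1 hne
          have h4 : α ≤ lev z := hz2
          rw [h] at h4
          exact absurd h3 (not_lt.2 h4)
        · intro hz
          rw [mem_singleton_iff.1 hz]
          exact ⟨mem_C_self x, h1⟩
      · exact Order.add_one_le_of_lt h
    · intro h
      have h' : α < lev x := Order.add_one_le_iff.1 h
      refine ⟨h'.le, ?_⟩
      rintro ⟨U, hU, hUx⟩
      have hx : x ∈ U := by
        have : x ∈ U ∩ {x | α ≤ lev x} := by rw [hUx]; exact mem_singleton x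
        exact this.1
      obtain ⟨f, hinj, hlev, -, hfin⟩ := nhds_ext hU hx h'
      obtain ⟨v, hv⟩ := hfin.infinite_compl.nonempty
      have hv' : f v ∈ U := not_not.1 hv
      have h1 : f v ∈ U ∩ {x | α ≤ lev x} := ⟨hv', (hlev v).ge⟩
      rw [hUx, mem_singleton_iff] at h1
      have h2 := hlev v
      rw [h1] at h2
      exact absurd h2 h'.ne'
  | limit α hα ih =>
    rw [cb_limit hα]
    ext x
    rw [mem_iInter₂]
    constructor
    · intro h
      show α ≤ lev x
      by_contra hlt
      push Not at hlt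
      have h1 := h (lev x + 1) (hα.add_one_lt hlt)
      rw [ih _ (hα.add_one_lt hlt)] at h1
      have h2 : lev x + 1 ≤ lev x := h1
      exact absurd (Order.add_one_le_iff.1 h2) (lt_irrefl _)
    · intro h β hβ
      rw [ih β hβ]
      exact hβ.le.trans h

theorem scattered : Scattered Pt := by
  intro A hA
  obtain ⟨x, hxA, hmin⟩ := WellFounded.has_min (InvImage.wf lev Ordinal.lt_wf) A hA
  refine ⟨x, hxA, C x, isOpen_C x, ?_⟩
  ext z
  constructor
  · rintro ⟨hz1, hz2⟩
    by_contra hne
    exact hmin z hz2 (lev_lt hz1 hne)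
  · intro hz
    rw [mem_singleton_iff.1 hz]
    exact ⟨mem_C_self x, hxA⟩

theorem exists_lev {α : Ordinal.{0}} (h : α < ω_ 1) : ∃ x : Pt, lev x = α := by
  obtain ⟨w, hw⟩ := exists_rk h
  exact ⟨⟨[(w, w)], List.cons_ne_nil _ _, List.pairwise_singleton _ _⟩, hw⟩

theorem hasHeight : HasHeight Pt (ω_ 1) := by
  constructor
  · rw [cb_eq]
    refine eq_empty_of_forall_notMem fun x hx => ?_
    have h1 : ω_ 1 ≤ lev x := hx
    exact absurd (rk_lt_omega (x.l.head x.ne).1) (not_lt.2 h1)
  · intro β hβ h
    obtain ⟨x, hx⟩ := exists_lev hβ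
    rw [cb_eq] at h
    have : x ∈ {x | β ≤ lev x} := hx.ge
    rw [h] at this
    exact this

theorem mk_Pt : #Pt = ℵ₁ := by
  apply le_antisymm
  · have h1 : Function.Injective Pt.l := fun _ _ h => Pt.ext' h
    refine (Cardinal.mk_le_of_injective h1).trans ?_
    rw [Cardinal.mk_list_eq_mk, Cardinal.mk_prod, Cardinal.lift_id, mk_W]
    exact (Cardinal.mul_eq_self Cardinal.aleph0_lt_aleph_one.le).le
  · rw [← mk_W]
    refine Cardinal.mk_le_of_injective
      (f := fun w : W => (⟨[(w, w)], List.cons_ne_nil _ _, List.pairwise_singleton _ _⟩ : Pt)) ?_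
    intro a b h
    have h1 : [(a, a)] = [(b, b)] := congrArg Pt.l h
    exact (Prod.mk.inj (List.cons.inj h1).1).1

theorem isChoice : IsChoice C (range C) := by
  refine ⟨fun x => ⟨isOpen_C x, ?_⟩, ?_, ?_, ?_, ?_⟩
  · rintro α ⟨hx1, hx2⟩
    rw [cb_eq] at hx1 hx2
    rw [cb_eq, cb_eq]
    have h1 : α ≤ lev x := hx1
    have h2 : ¬ α + 1 ≤ lev x := hx2
    ext z
    constructor
    · rintro ⟨hz1, hz2, hz3⟩
      by_contra hne
      have h3 := lev_lt hz1 hne
      have h4 : α ≤ lev z := hz2
      exact h2 (Order.add_one_le_iff.2 (lt_of_le_of_lt h4 h3))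
    · intro hz
      rw [mem_singleton_iff.1 hz]
      exact ⟨mem_C_self x, h1, h2⟩
  · rintro _ ⟨x, rfl⟩
    exact isOpen_C x
  · exact eq_univ_of_forall fun x => ⟨C x, ⟨x, rfl⟩, mem_C_self x⟩
  · rintro _ ⟨x, rfl⟩
    exact ⟨x, Subset.rfl⟩
  · intro x
    apply Finite.countable
    refine ((finite_suffixes x).image C).subset ?_
    rintro _ ⟨⟨s, rfl⟩, hs⟩
    exact ⟨s, hs, rfl⟩

theorem exists_uncountable_nhds : ∃ x : Pt, ∀ U : Set Pt, IsOpen U → x ∈ U → ¬ U.Countable := by
  have h01 : (1 : Ordinal.{0}) < ω_ 1 := Ordinal.one_lt_omega0.trans Ordinal.omega0_lt_omega_one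
  obtain ⟨x, hx⟩ := exists_lev h01
  refine ⟨x, fun U hU hxU hc => ?_⟩
  obtain ⟨f, hinj, -, -, hfin⟩ := nhds_ext hU hxU (α := 0) (by rw [hx]; exact one_pos)
  have h1 : (univ : Set W) ⊆ f ⁻¹' U ∪ {v | f v ∉ U} := by
    intro v _
    by_cases h : f v ∈ U
    · exact Or.inl h
    · exact Or.inr h
  have h2 : (univ : Set W).Countable :=
    ((hc.preimage_of_injOn hinj.injOn).union hfin.countable).mono h1
  exact not_countable_iff.2 (inferInstance : Uncountable W) (countable_univ_iff.1 h2)

/-- There is a Tychonoff, Eberlein-Grothendieck, hereditarily meta-Lindelof, scattered space of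
height and cardinality `ω₁` for which a choice of the sets `U x` and of the refinement `V` exists
and for which, whatever this choice is, the poset is not ccc. -/
theorem result : ∃ (X : Type) (_ : TopologicalSpace X), T35Space X ∧ EberleinGrothendieck X ∧
    HereditarilyMetaLindelof X ∧ Scattered X ∧ HasHeight X (ω_ 1) ∧ #X = ℵ₁ ∧
    (∃ (U : X → Set X) (V : Set (Set X)), IsChoice U V) ∧
    ∀ (U : X → Set X) (V : Set (Set X)), IsChoice U V → ¬ Ccc V := by
  obtain ⟨x, hx⟩ := exists_uncountable_nhds
  have hT : T35Space Pt := by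
    obtain ⟨K, _, _, _, φ, hφ⟩ := eberleinGrothendieck
    exact hφ.t35Space
  exact ⟨Pt, inferInstance, hT, eberleinGrothendieck, hereditarilyMetaLindelof, scattered,
    hasHeight, mk_Pt, ⟨C, range C, isChoice⟩, fun U V h => not_ccc h hx⟩

end Pool.Agent.Results.MP_8301b4_gt.NotCcc
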